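import Mathlib
import Pool.Agent.R208.Decay

/-!
# Pointwise exponential decay of small bounded solutions of `A u' = Q(u)`

`A` is a bounded self-adjoint injective operator of a Hilbert space, whose inverse may be unbounded.
Every solution on `[0, ∞)` which is essentially uniformly close to the equilibrium `up` converges
pointwise exponentially to an equilibrium, and this equilibrium is `up` exactly if the conserved
quantity `P A u` (`P` the orthogonal projection onto `Vᗮ`) has the same value as for `up`.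

Idea of the proof: the energy estimate for the differences `w(· + h) - w` gives
`∫_t^∞ ‖w(s + h) - w(s)‖² ds ≤ C h^(3/2) exp(-b t)` for `t ≥ 2`, which is more than the regularity
needed for the embedding into bounded continuous functions.
-/

set_option autoImplicit false
set_option linter.unusedSectionVars false

open MeasureTheory Set Filter
open scoped Topology
open Pool.Agent.R208.Energy

namespace Pool.Agent.Results.MP_7e3c50_an.PointwiseDecay

variable {𝕜 : Type*} [RCLike 𝕜] {H : Type*} [NormedAddCommGroup H] [InnerProductSpace 𝕜 H]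
  [NormedSpace ℝ H] [CompleteSpace H]

/-- The hypotheses (H1), (H4), (H5), (H3) on the data `A`, `V`, `B`, `up`; here
`Q(u) = B(u, u)` and `T = Q'(up) = 2 B(up, ·)`. -/
structure Data (A : H →L[𝕜] H) (V : Submodule 𝕜 H) (B : H →L[𝕜] H →L[𝕜] H) (up : H) :
    Prop where
  /-- (H1) `A` is self-adjoint -/
  selfAdjoint : IsSelfAdjoint A
  /-- (H1) `V` is closed -/
  closed : IsClosed (V : Set H)
  /-- (H1) `V` is a proper subspace -/
  proper : V ≠ ⊤
  /-- (H1) the orthogonal complement of `V` has finite dimension -/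
  finite : FiniteDimensional 𝕜 Vᗮ
  /-- (H1) `B` is symmetric -/
  symm : ∀ x y, B x y = B y x
  /-- (H1) `B` has values in `V` -/
  mem : ∀ x y, B x y ∈ V
  /-- (H4) `A` is injective -/
  injective : Function.Injective A
  /-- (H5) the compression of `A` to `Vᗮ` is invertible -/
  invertible : Function.Bijective fun x : Vᗮ => Vᗮ.orthogonalProjectionOnto (A x)
  /-- (H3) `up` is an equilibrium -/
  zero : B up up = 0
  /-- (H3) `T` is self-adjoint -/
  T_selfAdjoint : IsSelfAdjoint ((2 : 𝕜) • B up)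
  /-- (H3) the kernel of `T` is `Vᗮ` -/
  T_ker : ((2 : 𝕜) • B up).ker = Vᗮ
  /-- (H3) `T ≤ -δ` on `V` -/
  T_neg : ∃ δ > 0, ∀ x ∈ V, RCLike.re (inner 𝕜 (((2 : 𝕜) • B up) x) x) ≤ -δ * ‖x‖ ^ 2
  /-- (H3) the Kawashima condition -/
  kawashima : ∃ K : H →L[𝕜] H, ContinuousLinearMap.adjoint K = -K ∧ ∃ γ > 0, ∀ x,
    γ * ‖x‖ ^ 2 ≤ RCLike.re (inner 𝕜 ((K ∘L A - (2 : 𝕜) • B up) x) x)

/-- `u` is a solution of `A u' = Q(u)` on `[0, ∞)`: it is strongly measurable and essentially
bounded, and `A u` is (a.e. equal to) a locally absolutely continuous function `y` with `y' = Q(u)`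
a.e., that is `y t = y s + ∫_s^t Q(u)`. -/
structure IsSolution (A : H →L[𝕜] H) (B : H →L[𝕜] H →L[𝕜] H) (u : ℝ → H) : Prop where
  meas : AEStronglyMeasurable u (volume.restrict (Ioi 0))
  bdd : ∃ M : ℝ, ∀ᵐ t ∂(volume.restrict (Ioi 0)), ‖u t‖ ≤ M
  eq : ∃ y : ℝ → H, (∀ᵐ t ∂(volume.restrict (Ioi 0)), y t = A (u t)) ∧
    ∀ s t, 0 ≤ s → s ≤ t → y t = y s + ∫ r in s..t, B (u r) (u r)

/-- `u` converges pointwise (a.e.) exponentially to `v`. -/
def ConvergesExp (u : ℝ → H) (v : H) : Prop :=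
  ∃ C β : ℝ, 0 < β ∧ ∀ᵐ t ∂(volume.restrict (Ioi 0)), ‖u t - v‖ ≤ C * Real.exp (-β * t)

section aux

variable {A : H →L[𝕜] H} {V : Submodule 𝕜 H} {B : H →L[𝕜] H →L[𝕜] H} {up : H}

lemma coercive (h : Data A V B up) [V.HasOrthogonalProjection] : ∃ C0 > 0, ∀ x,
    Vᗮ.orthogonalProjectionOnto (A x) = 0 → ‖x‖ ^ 2 ≤ C0 * ‖V.starProjection x‖ ^ 2 := by
  set L : Vᗮ →L[𝕜] Vᗮ := Vᗮ.orthogonalProjectionOnto ∘L (A ∘L Vᗮ.subtypeL) with hL
  have hbij : Function.Bijective L := h.invertible
  obtain ⟨K, hK0, hK⟩ : ∃ K : ℝ, 0 ≤ K ∧ ∀ x, ‖x‖ ≤ K * ‖L x‖ := by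
    set e := ContinuousLinearEquiv.ofBijective L (LinearMap.ker_eq_bot.2 hbij.1)
      (LinearMap.range_eq_top.2 hbij.2) with he
    refine ⟨‖(e.symm : Vᗮ →L[𝕜] Vᗮ)‖, norm_nonneg _, fun x => ?_⟩
    have h1 := (e.symm : Vᗮ →L[𝕜] Vᗮ).le_opNorm (L x)
    have h2 : (e.symm : Vᗮ →L[𝕜] Vᗮ) (L x) = x := by
      show e.symm (L x) = x
      have : L x = e x := rfl
      rw [this, ContinuousLinearEquiv.symm_apply_apply]
    rwa [h2] at h1
  refine ⟨1 + (K * ‖A‖) ^ 2, by positivity, fun x hx => ?_⟩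
  have h1 := V.starProjection_add_starProjection_orthogonal x
  have h2 : L (Vᗮ.orthogonalProjectionOnto x) =
      -Vᗮ.orthogonalProjectionOnto (A (V.starProjection x)) := by
    have h3 : Vᗮ.orthogonalProjectionOnto (A (V.starProjection x + Vᗮ.starProjection x)) = 0 := by
      rw [h1, hx]
    rw [map_add, map_add] at h3
    exact eq_neg_of_add_eq_zero_right h3
  have h3 : ‖Vᗮ.orthogonalProjectionOnto x‖ ≤ K * ‖A‖ * ‖V.starProjection x‖ := by
    refine (hK _).trans ?_
    rw [h2, norm_neg, mul_assoc]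
    refine mul_le_mul_of_nonneg_left ?_ hK0
    exact (Submodule.norm_orthogonalProjectionOnto_apply_le _ _).trans (A.le_opNorm _)
  rw [V.norm_sq_eq_add_norm_sq_starProjection x]
  have h4 : ‖Vᗮ.starProjection x‖ = ‖Vᗮ.orthogonalProjectionOnto x‖ := rfl
  rw [h4]
  have h5 := pow_le_pow_left₀ (norm_nonneg _) h3 2
  nlinarith

lemma T_diss (h : Data A V B up) [V.HasOrthogonalProjection] {δ : ℝ}
    (hδ : ∀ x ∈ V, RCLike.re (inner 𝕜 (((2 : 𝕜) • B up) x) x) ≤ -δ * ‖x‖ ^ 2) (x : H) :
    ip 𝕜 (((2 : 𝕜) • B up) x) x ≤ -δ * ‖V.starProjection x‖ ^ 2 := by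
  have h1 := V.starProjection_add_starProjection_orthogonal x
  have h2 : ((2 : 𝕜) • B up) (Vᗮ.starProjection x) = 0 := by
    have : Vᗮ.starProjection x ∈ ((2 : 𝕜) • B up).ker := by
      rw [h.T_ker]
      exact Submodule.starProjection_apply_mem _ _
    exact this
  have h3 : ((2 : 𝕜) • B up) x = ((2 : 𝕜) • B up) (V.starProjection x) := by
    conv_lhs => rw [← h1]
    rw [map_add, h2, add_zero]
  have h4 : ip 𝕜 (((2 : 𝕜) • B up) (V.starProjection x)) (Vᗮ.starProjection x) = 0 := by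
    unfold ip
    have h5 : ((2 : 𝕜) • B up) (V.starProjection x) ∈ V := V.smul_mem _ (h.mem _ _)
    rw [Submodule.inner_right_of_mem_orthogonal h5 (Submodule.starProjection_apply_mem _ _),
      map_zero]
  have h6 : ip 𝕜 (((2 : 𝕜) • B up) (V.starProjection x)) x
      = ip 𝕜 (((2 : 𝕜) • B up) (V.starProjection x)) (V.starProjection x) := by
    have h7 := ip_add_right 𝕜 (((2 : 𝕜) • B up) (V.starProjection x)) (V.starProjection x)
      (Vᗮ.starProjection x)
    rw [h1, h4, add_zero] at h7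
    exact h7
  rw [h3, h6]
  exact hδ _ (Submodule.starProjection_apply_mem _ _)

/-- decay for a solution which is uniformly close to `up` -/
theorem core (h : Data A V B up) [V.HasOrthogonalProjection] {δ C0 ε : ℝ} (hδ0 : 0 < δ)
    (hδ : ∀ x ∈ V, RCLike.re (inner 𝕜 (((2 : 𝕜) • B up) x) x) ≤ -δ * ‖x‖ ^ 2) (hC0 : 0 < C0)
    (hC : ∀ x, Vᗮ.orthogonalProjectionOnto (A x) = 0 → ‖x‖ ^ 2 ≤ C0 * ‖V.starProjection x‖ ^ 2)
    (hε : 2 * ε * ‖B‖ ≤ δ / (2 * C0)) {w y : ℝ → H} (hw : AEStronglyMeasurable w volume)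
    (hb : ∀ t, ‖w t‖ ≤ ε) (hyw : ∀ᵐ t, 0 < t → y t = A (up + w t))
    (hy : ∀ s t, 0 ≤ s → s ≤ t → y t = y s + ∫ r in s..t, B (up + w r) (up + w r)) :
    ∃ v : H, ∃ C β : ℝ, 0 < C ∧ 0 < β ∧ ∀ᵐ t, 0 < t → ‖w t - v‖ ≤ C * Real.exp (-β * t) := by
  have hε0 : 0 ≤ ε := (norm_nonneg _).trans (hb 0)
  set Q : ℝ → H := fun r => B (up + w r) (up + w r) with hQ
  set L : ℝ := ‖B‖ * (‖up‖ + ε) * (‖up‖ + ε) with hL
  have hL0 : 0 ≤ L := by positivity
  have hub : ∀ t, ‖up + w t‖ ≤ ‖up‖ + ε := fun t => (norm_add_le _ _).trans (by linarith [hb t])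
  have hQb : ∀ t, ‖Q t‖ ≤ L := by
    intro t
    refine (B.le_opNorm₂ _ _).trans ?_
    have := hub t
    rw [hL]
    gcongr
  have hum : AEStronglyMeasurable (fun t => up + w t) volume :=
    (aestronglyMeasurable_const).add hw
  have hQm : AEStronglyMeasurable Q volume :=
    B.isBoundedBilinearMap.continuous.comp_aestronglyMeasurable (hum.prodMk hum)
  have hQi := fun a b => ii hQm hQb a b
  set c : ℝ := δ / C0 with hc
  have hc0 : 0 < c := by positivity
  -- differences
  have hmain : ∀ t, 0 < t → IntegrableOn (F fun r => w (r + t) - w r) (Ioi 0) ∧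
      (∀ᵐ s, 0 < s → c * G (fun r => w (r + t) - w r) s ≤ (L * t) * ‖w (s + t) - w s‖) ∧
      (∀ᵐ s, 0 < s → c * G (fun r => w (r + t) - w r) s
        ≤ ‖A‖ * F (fun r => w (r + t) - w r) s) := by
    intro t ht
    set d : ℝ → H := fun r => w (r + t) - w r with hd
    have hdm : AEStronglyMeasurable d volume := (shift_meas hw t).sub hw
    have hdb : ∀ x, ‖d x‖ ≤ 2 * ε := by
      intro x
      refine (norm_sub_le _ _).trans ?_
      have := hb (x + t)
      have := hb x
      linarith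
    set g : ℝ → H := fun r => Q (r + t) - Q r with hg
    have hgm : AEStronglyMeasurable g volume := (shift_meas hQm t).sub hQm
    have hgb : ∀ x, ‖g x‖ ≤ 2 * L := by
      intro x
      refine (norm_sub_le _ _).trans ?_
      have := hQb (x + t)
      have := hQb x
      linarith
    have hY : ∀ s s', 0 ≤ s → s ≤ s' → y (s' + t) - y s' = y (s + t) - y s + ∫ r in s..s', g r := by
      intro s s' hs hss
      rw [hy (s + t) (s' + t) (by linarith) (by linarith), hy s s' hs hss, hg]
      simp only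
      rw [intervalIntegral.integral_sub (ii (shift_meas hQm t) (fun x => hQb _) _ _) (hQi _ _),
        intervalIntegral.integral_comp_add_right]
      abel
    have hYd : ∀ᵐ s, 0 < s → y (s + t) - y s = A (d s) := by
      filter_upwards [hyw, shift_ae hyw t] with s h1 h2 hs
      rw [h1 hs, h2 (by linarith), ← map_sub, hd]
      simp only
      congr 1
      abel
    -- the increment of `y`
    have hyinc : ∀ s, 0 < s → y (s + t) - y s = ∫ r in s..(s + t), Q r := by
      intro s hs
      rw [hy s (s + t) hs.le (by linarith), add_sub_cancel_left]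
    have hPA : ∀ᵐ s, 0 < s → Vᗮ.orthogonalProjectionOnto (A (d s)) = 0 := by
      filter_upwards [hYd] with s h1 hs
      rw [← h1 hs, hyinc s hs, intervalIntegral.integral_of_le (by linarith),
        ← ContinuousLinearMap.integral_comp_comm _ (hQi s (s + t)).1]
      have : ∀ r, Vᗮ.orthogonalProjectionOnto (Q r) = 0 := by
        intro r
        rw [Submodule.orthogonalProjectionOnto_eq_zero_iff]
        exact Submodule.le_orthogonal_orthogonal V (h.mem _ _)
      simp_rw [this]
      simp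
    have hAd : ∀ᵐ s, 0 < s → ‖A (d s)‖ ≤ L * t := by
      filter_upwards [hYd] with s h1 hs
      rw [← h1 hs, hyinc s hs]
      refine (intervalIntegral.norm_integral_le_of_norm_le_const fun r _ => hQb r).trans_eq ?_
      rw [add_sub_cancel_left, abs_of_pos ht]
    -- dissipation
    have hdis : ∀ s s', Good 𝕜 A d s → Good 𝕜 A d s' → 0 < s → s < s' →
        c * ∫ r in s..s', F d r ≤ en 𝕜 A d s - en 𝕜 A d s' := by
      intro s s' hs hs' hs0 hss
      have h1 := energy (𝕜 := 𝕜) h.selfAdjoint hdm hdb hgm hgb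
        (Y := fun s => y (s + t) - y s) hY hYd hs hs' hs0 hss
      have hgi : IntervalIntegrable (fun r => ip 𝕜 (g r) (d r)) volume s s' := by
        refine ii (M := 2 * L * (2 * ε)) (ip_meas 𝕜 hgm hdm) (fun x => ?_) _ _
        rw [Real.norm_eq_abs]
        refine (ip_le 𝕜 _ _).trans ?_
        exact mul_le_mul (hgb x) (hdb x) (norm_nonneg _) (by positivity)
      have h2 : ∫ r in s..s', ip 𝕜 (g r) (d r) ≤ ∫ r in s..s', -(c / 2) * F d r := by
        refine intervalIntegral.integral_mono_ae_restrict hss.le hgi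
          ((ii (F_meas hdm) (F_bound hdb) _ _).const_mul _) ?_
        rw [EventuallyLE, ae_restrict_iff' measurableSet_Icc]
        filter_upwards [hPA] with r hr hrI
        have hr0 : 0 < r := lt_of_lt_of_le hs0 hrI.1
        have h3 : g r = ((2 : 𝕜) • B up) (d r) + B (w (r + t) + w r) (d r) := by
          rw [hg, hQ, hd]
          simp only [map_add, map_sub, add_apply,
            two_smul]
          rw [h.symm (w (r + t)) up, h.symm (w r) up, h.symm (w (r + t)) (w r)]
          abel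
        have h4 := T_diss h hδ (d r)
        have h5 := hC (d r) (hr hr0)
        have h6 : ip 𝕜 (B (w (r + t) + w r) (d r)) (d r) ≤ 2 * ε * ‖B‖ * ‖d r‖ ^ 2 := by
          refine (le_abs_self _).trans ((ip_le 𝕜 _ _).trans ?_)
          have h7 : ‖w (r + t) + w r‖ ≤ 2 * ε := (norm_add_le _ _).trans
            (by linarith [hb (r + t), hb r])
          calc ‖B (w (r + t) + w r) (d r)‖ * ‖d r‖
              ≤ (‖B‖ * ‖w (r + t) + w r‖ * ‖d r‖) * ‖d r‖ :=
                mul_le_mul_of_nonneg_right (B.le_opNorm₂ _ _) (norm_nonneg _)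
            _ ≤ (‖B‖ * (2 * ε) * ‖d r‖) * ‖d r‖ := by gcongr
            _ = _ := by ring
        rw [h3, ip_add_left]
        have h8 : c * ‖d r‖ ^ 2 ≤ δ * ‖V.starProjection (d r)‖ ^ 2 := by
          rw [hc, div_mul_eq_mul_div, div_le_iff₀ hC0]
          nlinarith
        have h9 : 2 * ε * ‖B‖ * ‖d r‖ ^ 2 ≤ c / 2 * ‖d r‖ ^ 2 := by
          refine mul_le_mul_of_nonneg_right (hε.trans_eq ?_) (sq_nonneg _)
          rw [hc, div_div, mul_comm C0]
        unfold F
        linarith
      rw [intervalIntegral.integral_const_mul] at h2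
      linarith
    obtain ⟨h1, h2⟩ := dissipation hdm hdb hc0 hdis
    refine ⟨h1, ?_, ?_⟩
    · filter_upwards [h2, hAd] with s h3 h4 hs
      refine (h3 hs).trans ((le_abs_self _).trans ((ip_le 𝕜 _ _).trans ?_))
      exact mul_le_mul_of_nonneg_right (h4 hs) (norm_nonneg _)
    · filter_upwards [h2] with s h3 hs
      exact (h3 hs).trans ((le_abs_self _).trans (en_le s))
  -- application of the abstract statement
  refine limit_of_differences (ε := ε) (K := L ^ 3 * (2 * ε) / c ^ 3)
    (l := (2 * ‖A‖ + 1) / c) hw hb (by positivity) (by positivity)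
    (fun t ht => (hmain t ht).1) ?_
  intro t ht ht1 k
  obtain ⟨h1, h2, h3⟩ := hmain t ht
  have hdm : AEStronglyMeasurable (fun r => w (r + t) - w r) volume := (shift_meas hw t).sub hw
  have hdb : ∀ x, ‖w (x + t) - w x‖ ≤ 2 * ε := by
    intro x
    refine (norm_sub_le _ _).trans ?_
    have := hb (x + t)
    have := hb x
    linarith
  have h4 := sq_gain hdm hdb h1 hc0 (by positivity) h2
  have h5 := G_pow hdm hdb h1 hc0 (norm_nonneg A) h3 k
  have h6 := G_nonneg (d := fun r => w (r + t) - w r) (2 + k * ((2 * ‖A‖ + 1) / c))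
  have h7 := pow_le_pow_left₀ h6 h5 2
  refine h7.trans ?_
  rw [div_pow, ← pow_mul, mul_comm k 2, pow_mul]
  have h8 : G (fun r => w (r + t) - w r) 2 ^ 2 ≤ (L * t) ^ 3 * (2 * ε) / c ^ 3 := by
    rw [le_div_iff₀ (by positivity)]
    linarith
  calc G (fun r => w (r + t) - w r) 2 ^ 2 / (2 ^ 2) ^ k
      ≤ ((L * t) ^ 3 * (2 * ε) / c ^ 3) / (2 ^ 2) ^ k := by gcongr
    _ = _ := by
        have e : ((1:ℝ) / 4) ^ k = 1 / (2 ^ 2) ^ k := by
          rw [div_pow, one_pow]
          norm_num
        rw [e]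
        ring

/-- passage to a bounded measurable representative on the whole line -/
lemma exists_rep {ε : ℝ} (hε : 0 ≤ ε) {u : ℝ → H} (hu : IsSolution A B u)
    (hue : ∀ᵐ t ∂(volume.restrict (Ioi 0)), ‖u t - up‖ ≤ ε) :
    ∃ w y : ℝ → H, AEStronglyMeasurable w volume ∧ (∀ t, ‖w t‖ ≤ ε) ∧
      (∀ᵐ t ∂(volume.restrict (Ioi 0)), u t = up + w t) ∧
      (∀ᵐ t, 0 < t → y t = A (up + w t)) ∧
      (∀ s t, 0 ≤ s → s ≤ t → y t = y s + ∫ r in s..t, B (up + w r) (up + w r)) := by
  obtain ⟨y, hy1, hy2⟩ := hu.eq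
  set u' := hu.meas.mk u with hu'
  have hu'm : StronglyMeasurable u' := hu.meas.stronglyMeasurable_mk
  have hu'e : ∀ᵐ t ∂(volume.restrict (Ioi 0)), u t = u' t := hu.meas.ae_eq_mk
  set S : Set ℝ := {t | 0 < t ∧ ‖u' t - up‖ ≤ ε} with hS
  have hSm : MeasurableSet S :=
    measurableSet_Ioi.inter
      (measurableSet_le (hu'm.sub stronglyMeasurable_const).norm.measurable measurable_const)
  set w : ℝ → H := S.indicator (fun t => u' t - up) with hw
  have hwm : StronglyMeasurable w := (hu'm.sub stronglyMeasurable_const).indicator hSm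
  have huw : ∀ᵐ t ∂(volume.restrict (Ioi 0)), u t = up + w t := by
    filter_upwards [hu'e, hue, ae_restrict_mem measurableSet_Ioi] with t h1 h2 h3
    have h4 : t ∈ S := ⟨h3, by rw [← h1]; exact h2⟩
    rw [hw, indicator_of_mem h4, h1]
    abel
  refine ⟨w, y, hwm.aestronglyMeasurable, ?_, huw, ?_, ?_⟩
  · intro t
    rw [hw]
    by_cases ht : t ∈ S
    · rw [indicator_of_mem ht]
      exact ht.2
    · rw [indicator_of_notMem ht, norm_zero]
      exact hε
  · refine (ae_restrict_iff' measurableSet_Ioi).1 ?_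
    filter_upwards [hy1, huw] with t h1 h2
    rw [h1, ← h2]
  · intro s t hs hst
    rw [hy2 s t hs hst]
    congr 1
    refine intervalIntegral.integral_congr_ae ?_
    rw [uIoc_of_le hst]
    filter_upwards [(ae_restrict_iff' measurableSet_Ioi).1 huw] with r h1 h2
    rw [← h1 (lt_of_le_of_lt hs h2.1)]

lemma eq_zero_of_ae_exp {E : Type*} [NormedAddCommGroup E] {x : E} {K β : ℝ} (hβ : 0 < β)
    (h2 : ∀ᵐ t : ℝ, 0 < t → ‖x‖ ≤ K * Real.exp (-β * t)) : x = 0 := by
  by_contra hne
  have hpos : 0 < ‖x‖ := norm_pos_iff.2 hne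
  have h3 : Tendsto (fun t => K * Real.exp (-β * t)) atTop (𝓝 0) := by
    have h4 : Tendsto (fun t : ℝ => -β * t) atTop atBot :=
      tendsto_id.const_mul_atTop_of_neg (neg_neg_of_pos hβ)
    have := (Real.tendsto_exp_atBot.comp h4).const_mul K
    rwa [mul_zero] at this
  obtain ⟨N, hN⟩ := eventually_atTop.1 (h3.eventually (gt_mem_nhds hpos))
  obtain ⟨t, ht1, ht2⟩ : ∃ t, (0 < t → ‖x‖ ≤ K * Real.exp (-β * t)) ∧
      t ∈ Ioo (max N 0) (max N 0 + 1) := by
    have h4 : volume.restrict (Ioo (max N 0) (max N 0 + 1)) ≠ 0 := by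
      rw [Ne, Measure.restrict_eq_zero]
      simp
    have h5 := ae_restrict_mem (μ := volume) (measurableSet_Ioo (a := max N 0) (b := max N 0 + 1))
    have : (ae (volume.restrict (Ioo (max N 0) (max N 0 + 1)))).NeBot := ae_neBot.2 h4
    exact ((ae_restrict_of_ae h2).and h5).exists
  have h4 := hN t ((le_max_left _ _).trans ht2.1.le)
  have h5 := ht1 (lt_of_le_of_lt (le_max_right _ _) ht2.1)
  linarith

/-- the limit is an equilibrium -/
lemma limit_zero {ε : ℝ} {w y : ℝ → H} {v : H} {C β : ℝ} (hC : 0 < C) (hβ : 0 < β)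
    (hw : AEStronglyMeasurable w volume) (hb : ∀ t, ‖w t‖ ≤ ε)
    (hyw : ∀ᵐ t, 0 < t → y t = A (up + w t))
    (hy : ∀ s t, 0 ≤ s → s ≤ t → y t = y s + ∫ r in s..t, B (up + w r) (up + w r))
    (hv : ∀ᵐ t, 0 < t → ‖w t - v‖ ≤ C * Real.exp (-β * t)) : B (up + v) (up + v) = 0 := by
  have hε0 : 0 ≤ ε := (norm_nonneg _).trans (hb 0)
  set R : ℝ := ‖B‖ * (‖up‖ + ε + (‖up‖ + ‖v‖)) with hR
  have hR0 : 0 ≤ R := by positivity
  have hum : AEStronglyMeasurable (fun t => up + w t) volume :=
    (aestronglyMeasurable_const).add hw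
  have hub : ∀ t, ‖up + w t‖ ≤ ‖up‖ + ε := fun t => (norm_add_le _ _).trans (by linarith [hb t])
  have hQm : AEStronglyMeasurable (fun r => B (up + w r) (up + w r)) volume :=
    B.isBoundedBilinearMap.continuous.comp_aestronglyMeasurable (hum.prodMk hum)
  have hQb : ∀ t, ‖B (up + w t) (up + w t)‖ ≤ ‖B‖ * (‖up‖ + ε) * (‖up‖ + ε) := by
    intro t
    refine (B.le_opNorm₂ _ _).trans ?_
    have := hub t
    gcongr
  -- pointwise estimate
  have h1 : ∀ᵐ r, 0 < r → ‖B (up + w r) (up + w r) - B (up + v) (up + v)‖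
      ≤ R * (C * Real.exp (-β * r)) := by
    filter_upwards [hv] with r hr hr0
    have e1 : B (up + w r) (up + w r) - B (up + v) (up + v)
        = B (up + w r) (w r - v) + B (w r - v) (up + v) := by
      simp only [map_add, map_sub, add_apply, sub_apply]
      abel
    rw [e1]
    have h2 := hr hr0
    calc ‖B (up + w r) (w r - v) + B (w r - v) (up + v)‖
        ≤ ‖B (up + w r) (w r - v)‖ + ‖B (w r - v) (up + v)‖ := norm_add_le _ _
      _ ≤ ‖B‖ * ‖up + w r‖ * ‖w r - v‖ + ‖B‖ * ‖w r - v‖ * ‖up + v‖ :=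
          add_le_add (B.le_opNorm₂ _ _) (B.le_opNorm₂ _ _)
      _ ≤ ‖B‖ * (‖up‖ + ε) * ‖w r - v‖ + ‖B‖ * ‖w r - v‖ * (‖up‖ + ‖v‖) := by
          have := hub r
          have := norm_add_le up v
          gcongr
      _ = R * ‖w r - v‖ := by rw [hR]; ring
      _ ≤ _ := mul_le_mul_of_nonneg_left h2 hR0
  -- for almost every `t`
  have h2 : ∀ᵐ t, 0 < t → ‖B (up + v) (up + v)‖
      ≤ (‖A‖ * (2 * C) + R * C) * Real.exp (-β * t) := by
    filter_upwards [hyw, shift_ae hyw 1, hv, shift_ae hv 1] with t h3 h4 h5 h6 ht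
    have h3 := h3 ht
    have h4 := h4 (by linarith)
    have h5 := h5 ht
    have h6 := h6 (by linarith)
    have h7 := hy t (t + 1) ht.le (by linarith)
    have hE : Real.exp (-β * (t + 1)) ≤ Real.exp (-β * t) := by
      rw [Real.exp_le_exp]
      nlinarith
    have h8 : ‖y (t + 1) - y t‖ ≤ ‖A‖ * (2 * C) * Real.exp (-β * t) := by
      rw [h3, h4, ← map_sub]
      have e1 : up + w (t + 1) - (up + w t) = (w (t + 1) - v) - (w t - v) := by abel
      rw [e1]
      refine (A.le_opNorm _).trans ?_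
      rw [mul_assoc]
      refine mul_le_mul_of_nonneg_left ?_ (norm_nonneg _)
      refine (norm_sub_le _ _).trans ?_
      have := mul_le_mul_of_nonneg_left hE hC.le
      linarith
    have h9 : y (t + 1) - y t - B (up + v) (up + v)
        = ∫ r in t..(t + 1), (B (up + w r) (up + w r) - B (up + v) (up + v)) := by
      rw [h7, intervalIntegral.integral_sub (ii hQm hQb _ _) intervalIntegrable_const,
        intervalIntegral.integral_const]
      simp
    have h10 : ‖∫ r in t..(t + 1), (B (up + w r) (up + w r) - B (up + v) (up + v))‖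
        ≤ R * (C * Real.exp (-β * t)) * |t + 1 - t| := by
      refine intervalIntegral.norm_integral_le_of_norm_le_const_ae ?_
      filter_upwards [h1] with r h11 h12
      rw [uIoc_of_le (by linarith)] at h12
      refine (h11 (ht.trans h12.1)).trans ?_
      have : Real.exp (-β * r) ≤ Real.exp (-β * t) := by
        rw [Real.exp_le_exp]
        nlinarith [h12.1]
      gcongr
    rw [← h9, add_sub_cancel_left, abs_one, mul_one] at h10
    have h11 : ‖B (up + v) (up + v)‖ ≤ ‖y (t + 1) - y t‖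
        + ‖y (t + 1) - y t - B (up + v) (up + v)‖ := by
      have := norm_sub_le (y (t + 1) - y t) (y (t + 1) - y t - B (up + v) (up + v))
      rwa [sub_sub_cancel] at this
    calc _ ≤ _ := h11
      _ ≤ ‖A‖ * (2 * C) * Real.exp (-β * t) + R * (C * Real.exp (-β * t)) := add_le_add h8 h10
      _ = _ := by ring
  exact eq_zero_of_ae_exp hβ h2

/-- a nonzero equilibrium with the same conserved quantity is not close -/
lemma unique_equilibrium (h : Data A V B up) [V.HasOrthogonalProjection] {δ C0 ε : ℝ}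
    (hδ0 : 0 < δ)
    (hδ : ∀ x ∈ V, RCLike.re (inner 𝕜 (((2 : 𝕜) • B up) x) x) ≤ -δ * ‖x‖ ^ 2) (hC0 : 0 < C0)
    (hC : ∀ x, Vᗮ.orthogonalProjectionOnto (A x) = 0 → ‖x‖ ^ 2 ≤ C0 * ‖V.starProjection x‖ ^ 2)
    (hε : 2 * ε * ‖B‖ ≤ δ / (2 * C0)) {x : H} (hx : ‖x‖ ≤ ε)
    (hx0 : B (up + x) (up + x) = 0) (hPx : Vᗮ.orthogonalProjectionOnto (A x) = 0) : x = 0 := by
  have hε0 : 0 ≤ ε := (norm_nonneg _).trans hx
  have h1 : ((2 : 𝕜) • B up) x + B x x = 0 := by
    have e1 : B (up + x) (up + x) = B up up + (((2 : 𝕜) • B up) x + B x x) := by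
      simp only [map_add, add_apply, smul_apply, two_smul]
      rw [h.symm x up]
      abel
    rw [e1, h.zero, zero_add] at hx0
    exact hx0
  have h2 : ip 𝕜 (((2 : 𝕜) • B up) x) x + ip 𝕜 (B x x) x = 0 := by
    rw [← ip_add_left, h1]
    simp [ip]
  have h3 := T_diss h hδ x
  have h4 := hC x hPx
  have h5 : ip 𝕜 (B x x) x ≤ ‖B‖ * ε * ‖x‖ ^ 2 := by
    refine (le_abs_self _).trans ((ip_le 𝕜 _ _).trans ?_)
    calc ‖B x x‖ * ‖x‖ ≤ (‖B‖ * ‖x‖ * ‖x‖) * ‖x‖ :=
          mul_le_mul_of_nonneg_right (B.le_opNorm₂ _ _) (norm_nonneg _)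
      _ ≤ (‖B‖ * ε * ‖x‖) * ‖x‖ := by gcongr
      _ = _ := by ring
  have h6 : δ / C0 * ‖x‖ ^ 2 ≤ δ * ‖V.starProjection x‖ ^ 2 := by
    rw [div_mul_eq_mul_div, div_le_iff₀ hC0]
    nlinarith
  have h7 : ‖B‖ * ε ≤ δ / C0 / 2 := by
    have e1 : δ / (2 * C0) = δ / C0 / 2 := by rw [div_div, mul_comm C0]
    rw [e1] at hε
    nlinarith [norm_nonneg B, mul_nonneg (norm_nonneg B) hε0]
  have h8 : ‖B‖ * ε * ‖x‖ ^ 2 ≤ δ / C0 / 2 * ‖x‖ ^ 2 := mul_le_mul_of_nonneg_right h7 (sq_nonneg _)
  have h9 : 0 < δ / C0 := by positivity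
  have h10 : δ / C0 * ‖x‖ ^ 2 ≤ 0 := by nlinarith
  have h11 : ‖x‖ ^ 2 ≤ 0 := by
    by_contra hn
    push Not at hn
    have := mul_pos h9 hn
    linarith
  have h12 : ‖x‖ = 0 := by
    have := sq_nonneg ‖x‖
    exact pow_eq_zero_iff (two_ne_zero) |>.1 (le_antisymm h11 this)
  exact norm_eq_zero.1 h12

/-- there are other equilibria near `up` -/
lemma exists_equilibrium (h : Data A V B up) [V.HasOrthogonalProjection] {ε : ℝ} (hε : 0 < ε) :
    ∃ v, v ≠ up ∧ ‖v - up‖ ≤ ε ∧ B v v = 0 := by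
  obtain ⟨δ, hδ0, hδ⟩ := h.T_neg
  set S : H →L[𝕜] H := Vᗮ.starProjection - (2 : 𝕜) • B up with hS
  set Φ : H → H := fun x => Vᗮ.starProjection (x - up) - B x x with hΦ
  have hcoer : ∀ x, min 1 δ * ‖x‖ ^ 2 ≤ ip 𝕜 (S x) x := by
    intro x
    have h1 := T_diss h hδ x
    have h2 : ip 𝕜 (Vᗮ.starProjection x) x = ‖Vᗮ.starProjection x‖ ^ 2 := by
      have h3 := ip_add_right 𝕜 (Vᗮ.starProjection x) (V.starProjection x) (Vᗮ.starProjection x)
      rw [V.starProjection_add_starProjection_orthogonal, ip_self] at h3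
      have h4 : ip 𝕜 (Vᗮ.starProjection x) (V.starProjection x) = 0 := by
        unfold ip
        rw [Submodule.inner_left_of_mem_orthogonal (Submodule.starProjection_apply_mem V x)
          (Submodule.starProjection_apply_mem _ _), map_zero]
      rw [h3, h4, zero_add]
    rw [hS, sub_apply, ip_sub_left, h2, V.norm_sq_eq_add_norm_sq_starProjection x]
    have h5 := min_le_left 1 δ
    have h6 := min_le_right 1 δ
    have h7 := sq_nonneg ‖V.starProjection x‖
    have h8 := sq_nonneg ‖Vᗮ.starProjection x‖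
    nlinarith
  have hunit : IsUnit S := by
    refine ContinuousLinearMap.isUnit_of_forall_le_norm_inner_map S
      (c := ⟨min 1 δ, by positivity⟩) (lt_min one_pos hδ0) fun x => ?_
    rw [mul_comm]
    exact (hcoer x).trans (RCLike.re_le_norm _)
  have hrange : S.range = ⊤ := by
    have := (ContinuousLinearMap.isUnit_iff_bijective.1 hunit).2
    exact LinearMap.range_eq_top.2 this
  have hder : HasStrictFDerivAt Φ S up := by
    have h1 : HasStrictFDerivAt (fun x : H => B x x) ((2 : 𝕜) • B up) up := by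
      have h0 : HasStrictFDerivAt (fun p : H × H => B p.1 p.2)
          (B.isBoundedBilinearMap.deriv (up, up)) (up, up) :=
        B.isBoundedBilinearMap.hasStrictFDerivAt (up, up)
      have h00 : HasStrictFDerivAt (fun x : H => (x, x))
          ((ContinuousLinearMap.id 𝕜 H).prod (ContinuousLinearMap.id 𝕜 H)) up :=
        (hasStrictFDerivAt_id (𝕜 := 𝕜) up).prodMk (hasStrictFDerivAt_id (𝕜 := 𝕜) up)
      have h2 := HasStrictFDerivAt.comp (g := fun p : H × H => B p.1 p.2)
        (f := fun x : H => (x, x)) up h0 h00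
      refine h2.congr_fderiv ?_
      ext x
      simp [two_smul, h.symm x up]
    have h2 : HasStrictFDerivAt (fun x : H => Vᗮ.starProjection (x - up))
        (Vᗮ.starProjection) up := by
      have h3 : HasStrictFDerivAt (fun x : H => x - up) (ContinuousLinearMap.id 𝕜 H) up :=
        (hasStrictFDerivAt_id (𝕜 := 𝕜) up).sub_const up
      have h4 := HasStrictFDerivAt.comp (g := fun x : H => Vᗮ.starProjection x)
        (f := fun x : H => x - up) up (Vᗮ.starProjection).hasStrictFDerivAt h3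
      refine h4.congr_fderiv ?_
      ext x
      simp
    exact h2.sub h1
  have hΦ0 : Φ up = 0 := by simp [hΦ, h.zero]
  have hmap := hder.map_nhds_eq_of_surj hrange
  rw [hΦ0] at hmap
  -- the image of a ball
  have hball : Φ '' Metric.closedBall up ε ∈ 𝓝 (0 : H) := by
    rw [← hmap]
    exact image_mem_map (Metric.closedBall_mem_nhds up hε)
  obtain ⟨z, hzV, hz0⟩ : ∃ z ∈ Vᗮ, z ≠ 0 := by
    refine (Submodule.ne_bot_iff _).1 fun hbot => h.proper ?_
    rwa [Submodule.orthogonal_eq_bot_iff] at hbot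
  obtain ⟨c, hc0, hc⟩ : ∃ c : 𝕜, c ≠ 0 ∧ c • z ∈ Φ '' Metric.closedBall up ε := by
    have h1 : Tendsto (fun c : 𝕜 => c • z) (𝓝[≠] 0) (𝓝 0) := by
      have : Tendsto (fun c : 𝕜 => c • z) (𝓝 0) (𝓝 ((0 : 𝕜) • z)) :=
        (continuous_id.smul continuous_const).tendsto 0
      rw [zero_smul] at this
      exact this.mono_left nhdsWithin_le_nhds
    obtain ⟨c, h2, h3⟩ := ((h1.eventually hball).and self_mem_nhdsWithin).exists
    exact ⟨c, h3, h2⟩
  obtain ⟨x, hx1, hx2⟩ := hc
  refine ⟨x, ?_, ?_, ?_⟩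
  · rintro rfl
    rw [hΦ0] at hx2
    exact (smul_ne_zero hc0 hz0) hx2.symm
  · rwa [← dist_eq_norm]
  · have h1 : B x x = Vᗮ.starProjection (x - up) - c • z := by
      rw [← hx2, hΦ]
      simp
    have h2 : B x x ∈ Vᗮ := by
      rw [h1]
      exact Vᗮ.sub_mem (Submodule.starProjection_apply_mem _ _) (Vᗮ.smul_mem _ hzV)
    have h3 := Submodule.inner_right_of_mem_orthogonal (h.mem x x) h2
    exact inner_self_eq_zero.1 h3

end aux

/-- **Main theorem.** Let the data satisfy (H1), (H3), (H4), (H5).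

(1) There is `ε > 0` such that every solution `u` on `[0, ∞)` with `‖u - up‖ ≤ ε` a.e. converges
pointwise exponentially to an equilibrium `v`; it converges (pointwise exponentially) to `up` if and
only if the conserved quantity `P A u` (`P` the orthogonal projection onto `Vᗮ`) has the same value
as for `up`; in particular this is the case if `u - up` is square integrable.

(2) The condition in (1) cannot be omitted: there are constant solutions different from `up` and
arbitrarily close to it. -/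
theorem result (A : H →L[𝕜] H) (V : Submodule 𝕜 H) (B : H →L[𝕜] H →L[𝕜] H) (up : H)
    (h : Data A V B up) :
    (∃ ε > 0, ∀ u : ℝ → H, IsSolution A B u →
      (∀ᵐ t ∂(volume.restrict (Ioi 0)), ‖u t - up‖ ≤ ε) →
        (∃ v, B v v = 0 ∧ ConvergesExp u v) ∧
        (ConvergesExp u up ↔ ∀ᵐ t ∂(volume.restrict (Ioi 0)),
          Vᗮ.orthogonalProjectionOnto (A (u t)) = Vᗮ.orthogonalProjectionOnto (A up)) ∧
        (MemLp (fun t => u t - up) 2 (volume.restrict (Ioi 0)) → ConvergesExp u up)) ∧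
    (∀ ε > 0, ∃ v, v ≠ up ∧ ‖v - up‖ ≤ ε ∧ IsSolution A B (fun _ => v) ∧
      ¬ ConvergesExp (fun _ : ℝ => v) up) := by
  have hcompl : CompleteSpace V := h.closed.completeSpace_coe
  refine ⟨?_, ?_⟩
  · obtain ⟨δ, hδ0, hδ⟩ := h.T_neg
    obtain ⟨C0, hC0, hC⟩ := coercive h
    refine ⟨δ / (4 * C0 * (‖B‖ + 1)), by positivity, ?_⟩
    set ε : ℝ := δ / (4 * C0 * (‖B‖ + 1)) with hεdef
    have hε0 : 0 < ε := by positivity
    have hε : 2 * ε * ‖B‖ ≤ δ / (2 * C0) := by
      have e1 : δ / (2 * C0) = 2 * ε * (‖B‖ + 1) := by rw [hεdef]; field_simp; ring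
      rw [e1]
      nlinarith [norm_nonneg B]
    intro u hu hue
    obtain ⟨w, y, hwm, hwb, huw, hyw, hy⟩ := exists_rep hε0.le hu hue
    obtain ⟨v, C, β, hC1, hβ, hv⟩ := core h hδ0 hδ hC0 hC hε hwm hwb hyw hy
    have hv0 := limit_zero hC1 hβ hwm hwb hyw hy hv
    have hconv : ConvergesExp u (up + v) := by
      refine ⟨C, β, hβ, ?_⟩
      filter_upwards [huw, (ae_restrict_iff' measurableSet_Ioi).2 hv] with t h1 h2
      rw [h1, add_sub_add_left_eq_sub]
      exact h2
    -- the conserved quantity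
    have hcons : ∀ t, 0 ≤ t →
        Vᗮ.orthogonalProjectionOnto (y t) = Vᗮ.orthogonalProjectionOnto (y 0) := by
      intro t ht
      have hum : AEStronglyMeasurable (fun t => up + w t) volume :=
        (aestronglyMeasurable_const).add hwm
      have hub : ∀ t, ‖up + w t‖ ≤ ‖up‖ + ε :=
        fun t => (norm_add_le _ _).trans (by linarith [hwb t])
      have hQm : AEStronglyMeasurable (fun r => B (up + w r) (up + w r)) volume :=
        B.isBoundedBilinearMap.continuous.comp_aestronglyMeasurable (hum.prodMk hum)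
      have hQb : ∀ t, ‖B (up + w t) (up + w t)‖ ≤ ‖B‖ * (‖up‖ + ε) * (‖up‖ + ε) := by
        intro t
        refine (B.le_opNorm₂ _ _).trans ?_
        have := hub t
        gcongr
      rw [hy 0 t le_rfl ht, map_add, intervalIntegral.integral_of_le ht,
        ← ContinuousLinearMap.integral_comp_comm _ (ii hQm hQb 0 t).1]
      have : ∀ r, Vᗮ.orthogonalProjectionOnto (B (up + w r) (up + w r)) = 0 := by
        intro r
        rw [Submodule.orthogonalProjectionOnto_eq_zero_iff]
        exact Submodule.le_orthogonal_orthogonal V (h.mem _ _)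
      simp_rw [this]
      simp
    set κ := Vᗮ.orthogonalProjectionOnto (y 0) - Vᗮ.orthogonalProjectionOnto (A up) with hκ
    have hκae : ∀ᵐ t, 0 < t → Vᗮ.orthogonalProjectionOnto (A (w t)) = κ := by
      filter_upwards [hyw] with t h1 ht
      rw [hκ, ← hcons t ht.le, h1 ht, map_add, map_add]
      abel
    have hPle : ∀ x : H, ‖Vᗮ.orthogonalProjectionOnto (A x)‖ ≤ ‖A‖ * ‖x‖ := fun x =>
      (Submodule.norm_orthogonalProjectionOnto_apply_le _ _).trans (A.le_opNorm _)
    -- if the conserved quantity agrees then `v = 0`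
    have hback : κ = 0 → ConvergesExp u up := by
      intro hκ0
      have h1 : Vᗮ.orthogonalProjectionOnto (A v) = 0 := by
        refine eq_zero_of_ae_exp (K := ‖A‖ * C) hβ ?_
        filter_upwards [hκae, hv] with t h2 h3 ht
        have h2 := h2 ht
        rw [hκ0] at h2
        have h4 : ‖Vᗮ.orthogonalProjectionOnto (A v)‖
            = ‖Vᗮ.orthogonalProjectionOnto (A (w t - v))‖ := by
          rw [map_sub, map_sub, h2, zero_sub, norm_neg]
        rw [h4, mul_assoc]
        exact (hPle _).trans (mul_le_mul_of_nonneg_left (h3 ht) (norm_nonneg _))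
      have h2 : ‖v‖ ≤ ε := by
        by_contra hlt
        push Not at hlt
        have h3 : (‖v‖ - ε : ℝ) = 0 := by
          refine eq_zero_of_ae_exp (K := C) hβ ?_
          filter_upwards [hv] with t h3 ht
          rw [Real.norm_eq_abs, abs_of_pos (by linarith)]
          have h4 := norm_sub_norm_le v (w t)
          rw [norm_sub_rev] at h4
          linarith [h3 ht, hwb t]
        linarith
      have h3 := unique_equilibrium h hδ0 hδ hC0 hC hε h2 hv0 h1
      rw [h3, add_zero] at hconv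
      exact hconv
    refine ⟨⟨up + v, hv0, hconv⟩, ⟨?_, ?_⟩, ?_⟩
    · rintro ⟨C', β', hβ', h1⟩
      have h2 : κ = 0 := by
        refine eq_zero_of_ae_exp (K := ‖A‖ * C') hβ' ?_
        filter_upwards [hκae, (ae_restrict_iff' measurableSet_Ioi).1 h1,
          (ae_restrict_iff' measurableSet_Ioi).1 huw] with t h3 h4 h5 ht
        have h4 := h4 ht
        rw [h5 ht, add_sub_cancel_left] at h4
        rw [← h3 ht, mul_assoc]
        exact (hPle _).trans (mul_le_mul_of_nonneg_left h4 (norm_nonneg _))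
      filter_upwards [huw, (ae_restrict_iff' measurableSet_Ioi).2 hκae] with t h3 h4
      rw [h3, map_add, map_add, h4, h2, add_zero]
    · intro h1
      apply hback
      have h2 : ∀ᵐ t : ℝ, 0 < t → ‖κ‖ ≤ 0 * Real.exp (-1 * t) := by
        filter_upwards [hκae, (ae_restrict_iff' measurableSet_Ioi).1 h1,
          (ae_restrict_iff' measurableSet_Ioi).1 huw] with t h3 h4 h5 ht
        have h4 := h4 ht
        rw [h5 ht, map_add, map_add, h3 ht] at h4
        have h6 : κ = 0 := by simpa using h4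
        rw [h6, norm_zero, zero_mul]
      exact eq_zero_of_ae_exp one_pos h2
    · intro h1
      apply hback
      have h2 : MemLp (fun _ : ℝ => κ) 2 (volume.restrict (Ioi 0)) := by
        refine (h1.norm.const_mul ‖A‖).mono' aestronglyMeasurable_const ?_
        filter_upwards [(ae_restrict_iff' measurableSet_Ioi).2 hκae, huw] with t h3 h4
        rw [← h3, h4, add_sub_cancel_left]
        exact hPle _
      rw [memLp_const_iff (by norm_num) (by norm_num)] at h2
      rcases h2 with h2 | h2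
      · exact h2
      · simp at h2
  · intro ε hε
    obtain ⟨v, hv1, hv2, hv3⟩ := exists_equilibrium h hε
    refine ⟨v, hv1, hv2, ⟨aestronglyMeasurable_const, ⟨‖v‖, by simp⟩,
      ⟨fun _ => A v, by simp, fun s t _ _ => by simp [hv3]⟩⟩, ?_⟩
    rintro ⟨C, β, hβ, h1⟩
    refine hv1 (sub_eq_zero.1 (eq_zero_of_ae_exp (K := C) hβ ?_))
    exact (ae_restrict_iff' measurableSet_Ioi).1 h1

end Pool.Agent.Results.MP_7e3c50_an.PointwiseDecay
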